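import Mathlib
import Pool.Agent.Y826.Z.Defs3

/-! Project Y826/Z, job TI: sums with one long smooth variable. -/

open Finset Filter

namespace Pool.Agent.Y826.Z

namespace TIa

lemma harm (Q : ℕ) : ∑ q ∈ Icc 1 Q, 1 / (q : ℝ) ≤ 1 + Real.log Q := by
  have h2 := harmonic_le_one_add_log Q
  rw [harmonic_eq_sum_Icc] at h2
  push_cast at h2
  simp_rw [one_div]
  exact h2

lemma Icc_eq (N : ℕ) : Icc 1 N = Ioc 0 N := by
  ext x
  simp only [mem_Icc, mem_Ioc]
  omega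

lemma sum_tau_le (N : ℕ) : ∑ d ∈ Icc 1 N, tau d ≤ N * (1 + Real.log N) := by
  unfold tau
  have e : ∀ d ∈ Icc 1 N, (d.divisors.card : ℝ) = ∑ k ∈ Icc 1 N, if k ∣ d then (1:ℝ) else 0 := by
    intro d hd
    rw [mem_Icc] at hd
    rw [← sum_filter, sum_const, nsmul_eq_mul, mul_one]
    congr 2
    ext k
    simp only [Nat.mem_divisors, mem_filter, mem_Icc]
    constructor
    · rintro ⟨h1, h2⟩
      exact ⟨⟨Nat.pos_of_dvd_of_pos h1 hd.1, (Nat.le_of_dvd hd.1 h1).trans hd.2⟩, h1⟩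
    · rintro ⟨h1, h2⟩
      exact ⟨h2, by omega⟩
  rw [sum_congr rfl e, sum_comm]
  have e2 : ∀ k ∈ Icc 1 N, ∑ d ∈ Icc 1 N, (if k ∣ d then (1:ℝ) else 0) ≤ N * (1 / (k:ℝ)) := by
    intro k hk
    rw [← sum_filter, sum_const, nsmul_eq_mul, mul_one, Icc_eq, Nat.Ioc_filter_dvd_card_eq_div,
      mul_one_div]
    exact Nat.cast_div_le
  refine (sum_le_sum e2).trans ?_
  rw [← mul_sum]
  exact mul_le_mul_of_nonneg_left (harm N) (Nat.cast_nonneg _)

lemma ind_congr {P Q : Prop} (h : P ↔ Q) : ind P = ind Q := by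
  unfold ind
  by_cases hP : P
  · rw [if_pos hP, if_pos (h.1 hP)]
  · rw [if_neg hP, if_neg (fun hQ => hP (h.2 hQ))]

lemma ind_false {P : Prop} (h : ¬ P) : ind P = 0 := by
  unfold ind
  rw [if_neg h]

lemma count_class (y r v : ℕ) (hr : 0 < r) :
    |∑ l ∈ Icc 1 y, ind (l ≡ v [MOD r]) - (y:ℝ) / r| ≤ 1 := by
  have e : ∑ l ∈ Icc 1 y, ind (l ≡ v [MOD r]) = (((Ioc 0 y).filter (fun l => l ≡ v [MOD r])).card : ℝ) := by
    rw [card_filter, Icc_eq]
    push_cast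
    refine sum_congr rfl fun l _ => ?_
    unfold ind
    by_cases h : l ≡ v [MOD r]
    · rw [if_pos h, if_pos h]
    · rw [if_neg h, if_neg h]
  rw [e]
  have h := Nat.Ioc_filter_modEq_card 0 y hr v
  set c := ((Ioc 0 y).filter (fun l => l ≡ v [MOD r])).card with hc
  have hrq : (0:ℚ) < r := by exact_mod_cast hr
  have hyq : (0:ℚ) ≤ y := Nat.cast_nonneg y
  set A : ℚ := ((y:ℚ) - v) / r with hA
  set B : ℚ := (((0:ℕ):ℚ) - v) / r with hB
  have hAB : A - B = y / r := by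
    rw [hA, hB]
    field_simp
    push_cast
    ring
  have hge : B ≤ A := by
    have : 0 ≤ A - B := by rw [hAB]; positivity
    linarith
  have h1 : (c:ℤ) = ⌊A⌋ - ⌊B⌋ := by
    rw [h, max_eq_left]
    have := Int.floor_mono hge
    linarith
  have h2 : (c:ℚ) = (⌊A⌋:ℚ) - (⌊B⌋:ℚ) := by exact_mod_cast h1
  have f1 := Int.floor_le A
  have f2 := Int.lt_floor_add_one A
  have f3 := Int.floor_le B
  have f4 := Int.lt_floor_add_one B
  have h3 : |(c:ℚ) - y / r| ≤ 1 := by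
    rw [h2, ← hAB]
    exact abs_le.2 ⟨by linarith, by linarith⟩
  have h4 : ((|(c:ℚ) - y / r| : ℚ) : ℝ) ≤ ((1:ℚ):ℝ) := by exact_mod_cast h3
  push_cast at h4
  exact h4

lemma crt {K : ℕ} (h : Fin K → ℤ) (W b : ℕ) (x : Fin K → ℕ) (hsf : Squarefree (W * Pr x))
    (s : Finset (Fin K)) :
    ∃ c : ℕ, ∀ n : ℕ, (n ≡ b [MOD W] ∧ ∀ j ∈ s, (x j : ℤ) ∣ (n:ℤ) + h j) ↔
      n ≡ c [MOD (W * ∏ j ∈ s, x j)] := by
  classical
  induction s using Finset.induction_on with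
  | empty => exact ⟨b, fun n => by simp⟩
  | insert j s hj ih =>
    obtain ⟨c, hc⟩ := ih
    have hsf2 : Squarefree (W * ∏ i ∈ insert j s, x i) :=
      hsf.squarefree_of_dvd (mul_dvd_mul_left W (prod_dvd_prod_of_subset _ _ _ (subset_univ _)))
    have hprod : W * ∏ i ∈ insert j s, x i = (W * ∏ i ∈ s, x i) * x j := by
      rw [prod_insert hj]; ring
    rw [hprod] at hsf2
    have hco : (W * ∏ i ∈ s, x i).Coprime (x j) := Nat.coprime_of_squarefree_mul hsf2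
    have hx0 : 0 < x j := by
      rcases Nat.eq_zero_or_pos (x j) with h0 | h0
      · rw [h0, mul_zero] at hsf2
        exact absurd hsf2 not_squarefree_zero
      · exact h0
    have hxz : (0:ℤ) < x j := by exact_mod_cast hx0
    obtain ⟨e, he⟩ : ∃ e : ℕ, ∀ n : ℕ, (x j : ℤ) ∣ (n:ℤ) + h j ↔ n ≡ e [MOD x j] := by
      refine ⟨((-(h j)) % (x j : ℤ)).toNat, fun n => ?_⟩
      have h1 : 0 ≤ (-(h j)) % (x j : ℤ) := Int.emod_nonneg _ hxz.ne'
      rw [← Int.natCast_modEq_iff, Int.toNat_of_nonneg h1]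
      have h2 : (-(h j)) % (x j : ℤ) ≡ -(h j) [ZMOD (x j : ℤ)] := Int.mod_modEq _ _
      constructor
      · intro h3
        refine Int.ModEq.trans ?_ h2.symm
        rw [Int.modEq_iff_dvd]
        have : -(h j) - (n:ℤ) = -((n:ℤ) + h j) := by ring
        rw [this]
        exact (dvd_neg).2 h3
      · intro h3
        have h4 := (Int.modEq_iff_dvd).1 (h3.trans h2)
        have : -(h j) - (n:ℤ) = -((n:ℤ) + h j) := by ring
        rw [this] at h4
        exact (dvd_neg).1 h4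
    refine ⟨(Nat.chineseRemainder hco c e : ℕ), fun n => ?_⟩
    have hcr := (Nat.chineseRemainder hco c e).2
    rw [hprod, ← Nat.modEq_and_modEq_iff_modEq_mul hco]
    constructor
    · rintro ⟨h1, h2⟩
      have h3 := (hc n).1 ⟨h1, fun i hi => h2 i (mem_insert_of_mem hi)⟩
      have h4 := (he n).1 (h2 j (mem_insert_self j s))
      exact ⟨h3.trans hcr.1.symm, h4.trans hcr.2.symm⟩
    · rintro ⟨h1, h2⟩
      have h3 := (hc n).2 (h1.trans hcr.1)
      have h4 := (he n).2 (h2.trans hcr.2)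
      refine ⟨h3.1, fun i hi => ?_⟩
      rcases mem_insert.1 hi with rfl | hi
      · exact h4
      · exact h3.2 i hi

lemma crt_full {K : ℕ} (h : Fin K → ℤ) (W b : ℕ) (x : Fin K → ℕ) (hsf : Squarefree (W * Pr x)) :
    ∃ c : ℕ, ∀ n : ℕ, (n ≡ b [MOD W] ∧ Cd h x n) ↔ n ≡ c [MOD (W * Pr x)] := by
  obtain ⟨c, hc⟩ := crt h W b x hsf univ
  refine ⟨c, fun n => ?_⟩
  have := hc n
  simp only [mem_univ, true_imp_iff] at this
  exact this

lemma mul_class (d Q c : ℕ) (hQ : 0 < Q) (hd : d.Coprime Q) :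
    ∃ c' : ℕ, ∀ l : ℕ, (d * l ≡ c [MOD Q]) ↔ l ≡ c' [MOD Q] := by
  have : NeZero Q := ⟨hQ.ne'⟩
  set u := ZMod.unitOfCoprime d hd with hu
  refine ⟨(((u⁻¹ : (ZMod Q)ˣ) : ZMod Q) * c).val, fun l => ?_⟩
  rw [← ZMod.natCast_eq_natCast_iff, ← ZMod.natCast_eq_natCast_iff, ZMod.natCast_val, ZMod.cast_id]
  have h1 : (d : ZMod Q) = (u : ZMod Q) := (ZMod.coe_unitOfCoprime d hd).symm
  push_cast
  rw [h1, Units.eq_inv_mul_iff_mul_eq]

lemma count_cop (y Q r c : ℕ) (hQ : 0 < Q) (hr : 0 < r) (hco : Q.Coprime r) :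
    |∑ l ∈ Icc 1 y, ind (l ≡ c [MOD Q] ∧ l.Coprime r) -
      (Nat.totient r : ℝ) * ((y:ℝ) / ((Q * r : ℕ) : ℝ))| ≤ Nat.totient r := by
  classical
  set T := (range r).filter (fun t => r.Coprime t) with hT
  have hcard : T.card = Nat.totient r := rfl
  have e : ∀ l, ind (l ≡ c [MOD Q] ∧ l.Coprime r) =
      ∑ t ∈ T, ind (l ≡ (Nat.chineseRemainder hco c t : ℕ) [MOD Q * r]) := by
    intro l
    have e1 : ∀ t ∈ T, ind (l ≡ (Nat.chineseRemainder hco c t : ℕ) [MOD Q * r]) =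
        ind (l ≡ c [MOD Q] ∧ l % r = t) := by
      intro t ht
      rw [hT, mem_filter, mem_range] at ht
      refine ind_congr ?_
      have hcr := (Nat.chineseRemainder hco c t).2
      rw [← Nat.modEq_and_modEq_iff_modEq_mul hco]
      constructor
      · rintro ⟨h1, h2⟩
        refine ⟨h1.trans hcr.1, ?_⟩
        have h3 : l ≡ t [MOD r] := h2.trans hcr.2
        unfold Nat.ModEq at h3
        rw [h3, Nat.mod_eq_of_lt ht.1]
      · rintro ⟨h1, h2⟩
        refine ⟨h1.trans hcr.1.symm, ?_⟩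
        have h3 : l ≡ t [MOD r] := by
          unfold Nat.ModEq
          rw [h2, Nat.mod_eq_of_lt ht.1]
        exact h3.trans hcr.2.symm
    rw [sum_congr rfl e1]
    by_cases hl : l.Coprime r
    · have hmem : l % r ∈ T := by
        rw [hT, mem_filter, mem_range]
        refine ⟨Nat.mod_lt _ hr, ?_⟩
        rw [Nat.coprime_comm] at hl
        rw [Nat.Coprime, Nat.gcd_comm, ← Nat.gcd_rec, ]
        exact hl
      rw [sum_eq_single_of_mem _ hmem]
      · refine ind_congr ?_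
        constructor
        · rintro ⟨h1, _⟩; exact ⟨h1, rfl⟩
        · rintro ⟨h1, _⟩; exact ⟨h1, hl⟩
      · intro t _ hne
        exact ind_false fun h => hne h.2.symm
    · rw [ind_false (fun h => hl h.2)]
      symm
      apply sum_eq_zero
      intro t ht
      apply ind_false
      rintro ⟨_, h2⟩
      apply hl
      rw [hT, mem_filter] at ht
      have h3 := ht.2
      rw [← h2, Nat.Coprime, Nat.gcd_comm, ← Nat.gcd_rec] at h3
      rw [Nat.coprime_comm]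
      exact h3
  rw [sum_congr rfl fun l _ => e l, sum_comm]
  have h1 : ∑ t ∈ T, ∑ l ∈ Icc 1 y, ind (l ≡ (Nat.chineseRemainder hco c t : ℕ) [MOD Q * r]) -
      (Nat.totient r : ℝ) * ((y:ℝ) / ((Q * r : ℕ) : ℝ)) =
      ∑ t ∈ T, (∑ l ∈ Icc 1 y, ind (l ≡ (Nat.chineseRemainder hco c t : ℕ) [MOD Q * r]) -
        ((y:ℝ) / ((Q * r : ℕ) : ℝ))) := by
    rw [sum_sub_distrib, sum_const, hcard, nsmul_eq_mul]
  rw [h1]
  refine (abs_sum_le_sum_abs _ _).trans ?_
  refine (sum_le_sum fun t _ => count_class y (Q * r) _ (Nat.mul_pos hQ hr)).trans ?_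
  rw [sum_const, hcard, nsmul_eq_mul, mul_one]

/-! ### smooth and rough parts -/

lemma smp_mul_rop (D n : ℕ) (hn : Squarefree n) : smp D n * rop D n = n := by
  unfold smp rop
  have h := prod_filter_mul_prod_filter_not n.primeFactors (fun p => p ≤ D) (fun p => p)
  simp only [not_le] at h
  rw [h]
  exact Nat.prod_primeFactors_of_squarefree hn

lemma Pr_sm_ro {K : ℕ} (D : ℕ) (q : Fin K → ℕ) (hq : ∀ j, Squarefree (q j)) :
    Pr (sm D q) * Pr (ro D q) = Pr q := by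
  unfold Pr sm ro
  rw [← prod_mul_distrib]
  exact prod_congr rfl fun j _ => smp_mul_rop D (q j) (hq j)

lemma sf_comp {K : ℕ} {W : ℕ} {q : Fin K → ℕ} (h : Squarefree (W * Pr q)) (j : Fin K) :
    Squarefree (q j) :=
  h.squarefree_of_dvd (Dvd.dvd.mul_left (dvd_prod_of_mem q (mem_univ j)) W)

lemma dl_sum {K : ℕ} {h : Fin K → ℤ} {W b : ℕ} (H : Hyp h W b) (D : ℕ) (q : Fin K → ℕ)
    (hsf : Squarefree (W * Pr q)) (d : ℕ) (y : ℕ) :
    |∑ l ∈ Icc 1 y, dl h W b D q (d * l)| ≤ 2 := by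
  have hW := H.wpos
  have hq := fun j => sf_comp hsf j
  have hpq : 0 < W * Pr q := Nat.pos_of_ne_zero hsf.ne_zero
  have hfac := Pr_sm_ro D q hq
  set a := Pr (sm D q) with ha
  set r := Pr (ro D q) with hr
  have hWar : W * Pr q = (W * a) * r := by rw [← hfac]; ring
  have hsf2 : Squarefree ((W * a) * r) := hWar ▸ hsf
  have hco : (W * a).Coprime r := Nat.coprime_of_squarefree_mul hsf2
  have hWa : 0 < W * a := Nat.pos_of_ne_zero (hsf2.squarefree_of_dvd (dvd_mul_right _ _)).ne_zero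
  have hr0 : 0 < r := Nat.pos_of_ne_zero (hsf2.squarefree_of_dvd (dvd_mul_left _ _)).ne_zero
  have hphi : (0:ℝ) < Nat.totient r := by exact_mod_cast Nat.totient_pos.2 hr0
  by_cases hd : d.Coprime (W * Pr q)
  · obtain ⟨c0, hc0⟩ := crt_full h W b q hsf
    obtain ⟨c1, hc1⟩ := mul_class d (W * Pr q) c0 hpq hd
    obtain ⟨c2, hc2⟩ := crt_full h W b (sm D q) (hsf2.squarefree_of_dvd (dvd_mul_right _ _))
    have hd2 : d.Coprime (W * a) := by
      rw [hWar] at hd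
      exact Nat.Coprime.coprime_mul_right_right hd
    have hd3 : d.Coprime r := by
      rw [hWar] at hd
      exact Nat.Coprime.coprime_mul_left_right hd
    obtain ⟨c3, hc3⟩ := mul_class d (W * a) c2 hWa hd2
    have e : ∀ l, dl h W b D q (d * l) = ind (l ≡ c1 [MOD W * Pr q]) -
        (1 / (Nat.totient r : ℝ)) * ind (l ≡ c3 [MOD W * a] ∧ l.Coprime r) := by
      intro l
      unfold dl
      congr 1
      · exact ind_congr ((hc0 (d * l)).trans (hc1 l))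
      · congr 1
        refine ind_congr ?_
        rw [← and_assoc, hc2 (d * l), ← ha, hc3 l, ← hr]
        refine and_congr_right fun _ => ?_
        constructor
        · exact fun h1 => Nat.Coprime.coprime_mul_left h1
        · exact fun h1 => Nat.Coprime.mul_left hd3 h1
    rw [sum_congr rfl fun l _ => e l, sum_sub_distrib, ← mul_sum]
    have b1 := count_class y (W * Pr q) c1 hpq
    have b2 := count_cop y (W * a) r c3 hWa hr0 hco
    rw [hWar] at b1 ⊢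
    set S1 := ∑ l ∈ Icc 1 y, ind (l ≡ c1 [MOD W * a * r]) with hS1
    set S2 := ∑ l ∈ Icc 1 y, ind (l ≡ c3 [MOD W * a] ∧ l.Coprime r) with hS2
    set m := (y:ℝ) / ((W * a * r : ℕ) : ℝ) with hm
    have e2 : S1 - 1 / (Nat.totient r : ℝ) * S2 =
        (S1 - m) - 1 / (Nat.totient r : ℝ) * (S2 - Nat.totient r * m) := by
      field_simp
      ring
    rw [e2]
    have b3 : |1 / (Nat.totient r : ℝ) * (S2 - Nat.totient r * m)| ≤ 1 := by
      rw [abs_mul, abs_of_pos (by positivity), one_div, inv_mul_le_iff₀ hphi, mul_one]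
      exact b2
    have b4 := abs_le.1 b1
    have b5 := abs_le.1 b3
    exact abs_le.2 ⟨by linarith [b4.1, b5.2], by linarith [b4.2, b5.1]⟩
  · have hz : ∀ l, dl h W b D q (d * l) = 0 := by
      intro l
      obtain ⟨p, hp, hpd, hpq2⟩ := Nat.Prime.not_coprime_iff_dvd.1 hd
      have hpn : p ∣ d * l := Dvd.dvd.mul_right hpd l
      -- `p ∣ W` is impossible
      have c1 : p ∣ W → ¬ (d * l ≡ b [MOD W]) := by
        intro hpW hc
        have h1 : d * l ≡ b [MOD p] := hc.of_dvd hpW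
        have h2 : p ∣ b := (Nat.modEq_zero_iff_dvd.1 ((h1.symm).trans (Nat.modEq_zero_iff_dvd.2 hpn)))
        have h3 := Nat.dvd_gcd h2 hpW
        rw [H.bW] at h3
        exact hp.one_lt.ne' (Nat.dvd_one.1 h3)
      by_cases hpW : p ∣ W
      · unfold dl
        rw [ind_false (fun h1 => c1 hpW h1.1), ind_false (fun h1 => c1 hpW h1.1)]
        ring
      · have hpP : p ∣ Pr q := (hp.dvd_mul.1 hpq2).resolve_left hpW
        obtain ⟨j, _, hj⟩ := (Prime.dvd_finsetProd_iff hp.prime _).1 hpP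
        have hnot : ¬ (p:ℤ) ∣ ((d * l : ℕ) : ℤ) + h j := by
          intro h1
          have h2 : (p:ℤ) ∣ ((d * l : ℕ) : ℤ) := by exact_mod_cast hpn
          exact H.h1 p hp hpW j ((dvd_add_right h2).1 h1)
        have h1 : ¬ Cd h q (d * l) := by
          intro hc
          exact hnot (dvd_trans (by exact_mod_cast hj) (hc j))
        have h2 : ¬ (d * l ≡ b [MOD W] ∧ Cd h (sm D q) (d * l) ∧ (d * l).Coprime (Pr (ro D q))) := by
          rintro ⟨_, hc, hcop⟩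
          have hq0 : q j ≠ 0 := (hq j).ne_zero
          have hpf : p ∈ (q j).primeFactors := Nat.mem_primeFactors.2 ⟨hp, hj, hq0⟩
          rcases le_or_gt p D with hpD | hpD
          · have h3 : p ∣ sm D q j := by
              unfold sm smp
              exact dvd_prod_of_mem (fun p => p) (mem_filter.2 ⟨hpf, hpD⟩)
            exact hnot (dvd_trans (by exact_mod_cast h3) (hc j))
          · have h3 : p ∣ ro D q j := by
              unfold ro rop
              exact dvd_prod_of_mem (fun p => p) (mem_filter.2 ⟨hpf, hpD⟩)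
            have h4 : p ∣ Pr (ro D q) := dvd_trans h3 (dvd_prod_of_mem _ (mem_univ j))
            have h5 := Nat.dvd_gcd hpn h4
            rw [hcop] at h5
            exact hp.one_lt.ne' (Nat.dvd_one.1 h5)
        unfold dl
        rw [ind_false (fun h3 => h1 h3.2), ind_false h2]
        ring
    rw [sum_eq_zero fun l _ => hz l]
    simp

/-! ### Abel summation -/

lemma abel_eq (F s : ℕ → ℝ) (L : ℕ) :
    ∑ l ∈ Icc 1 L, F l * s l = F L * (∑ l ∈ Icc 1 L, s l) -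
      ∑ l ∈ Ico 1 L, (F (l + 1) - F l) * (∑ k ∈ Icc 1 l, s k) := by
  induction L with
  | zero => simp
  | succ n ih =>
    rw [sum_Icc_succ_top (by omega), ih, sum_Icc_succ_top (by omega)]
    rcases Nat.eq_zero_or_pos n with h0 | h0
    · subst h0; simp
    · rw [sum_Ico_succ_top h0]
      ring

lemma abel_le (F s : ℕ → ℝ) (L : ℕ) (B : ℝ) (hs : ∀ y, |∑ l ∈ Icc 1 y, s l| ≤ B) :
    |∑ l ∈ Icc 1 L, F l * s l| ≤ B * (|F L| + ∑ l ∈ Ico 1 L, |F (l + 1) - F l|) := by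
  rw [abel_eq]
  have h1 : |F L * ∑ l ∈ Icc 1 L, s l| ≤ B * |F L| := by
    rw [abs_mul, mul_comm]
    exact mul_le_mul_of_nonneg_right (hs L) (abs_nonneg _)
  have h2 : |∑ l ∈ Ico 1 L, (F (l + 1) - F l) * (∑ k ∈ Icc 1 l, s k)| ≤
      B * ∑ l ∈ Ico 1 L, |F (l + 1) - F l| := by
    refine (abs_sum_le_sum_abs _ _).trans ?_
    rw [mul_sum]
    refine sum_le_sum fun l _ => ?_
    rw [abs_mul, mul_comm]
    exact mul_le_mul_of_nonneg_right (hs l) (abs_nonneg _)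
  calc |F L * ∑ l ∈ Icc 1 L, s l - ∑ l ∈ Ico 1 L, (F (l + 1) - F l) * (∑ k ∈ Icc 1 l, s k)| ≤
      |F L * ∑ l ∈ Icc 1 L, s l| + |∑ l ∈ Ico 1 L, (F (l + 1) - F l) * (∑ k ∈ Icc 1 l, s k)| :=
        abs_sub _ _
    _ ≤ B * |F L| + B * ∑ l ∈ Ico 1 L, |F (l + 1) - F l| := add_le_add h1 h2
    _ = _ := by ring

lemma Phi_nonneg (u : ℝ) : 0 ≤ H378R2.Phi u := le_max_left _ _

lemma Phi_le (u : ℝ) : H378R2.Phi u ≤ 1 / 2 :=
  max_le (by norm_num) (by linarith [abs_nonneg (Real.log u - 1 / 2)])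

lemma Phi_lip (u v : ℝ) : |H378R2.Phi u - H378R2.Phi v| ≤ |Real.log u - Real.log v| := by
  unfold H378R2.Phi
  have h1 := abs_max_sub_max_le_abs (1 / 2 - |Real.log u - 1 / 2|) (1 / 2 - |Real.log v - 1 / 2|) 0
  rw [max_comm _ (0:ℝ), max_comm _ (0:ℝ)] at h1
  refine h1.trans ?_
  have h2 := abs_abs_sub_abs_le_abs_sub (Real.log v - 1 / 2) (Real.log u - 1 / 2)
  rw [show (1 / 2 - |Real.log u - 1 / 2| - (1 / 2 - |Real.log v - 1 / 2|)) =
    |Real.log v - 1 / 2| - |Real.log u - 1 / 2| by ring]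
  refine h2.trans (le_of_eq ?_)
  rw [abs_sub_comm (Real.log u)]
  congr 1
  ring

lemma weight_sum (g : ℕ → ℝ) (hg : (∀ l, g l = 1) ∨ ∀ l, g l = Real.log l) (X : ℝ) (hX : 0 < X)
    (d : ℕ) (hd : 1 ≤ d) (L : ℕ) (s : ℕ → ℝ) (hs : ∀ y, |∑ l ∈ Icc 1 y, s l| ≤ 2) :
    |∑ l ∈ Icc 1 L, g l * H378R2.Phi (((d * l : ℕ) : ℝ) / X) * s l| ≤
      4 * (2 + Real.log L) ^ 2 := by
  have hlogL : 0 ≤ Real.log L := Real.log_natCast_nonneg L
  set F : ℕ → ℝ := fun l => g l * H378R2.Phi (((d * l : ℕ) : ℝ) / X) with hF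
  have hg1 : ∀ l, 1 ≤ l → l ≤ L → |g l| ≤ 1 + Real.log L := by
    intro l h1 h2
    have hll : Real.log l ≤ Real.log L :=
      Real.log_le_log (by exact_mod_cast h1) (by exact_mod_cast h2)
    have h0 : 0 ≤ Real.log l := Real.log_natCast_nonneg l
    rcases hg with hg | hg
    · rw [hg l, abs_one]; linarith
    · rw [hg l, abs_of_nonneg h0]; linarith
  have hg0 : |g L| ≤ 1 + Real.log L := by
    rcases hg with hg | hg
    · rw [hg L, abs_one]; linarith
    · rw [hg L, abs_of_nonneg hlogL]; linarith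
  have hdr : (0:ℝ) < d := by exact_mod_cast hd
  have hdiff : ∀ l, 1 ≤ l → Real.log (((d * (l + 1) : ℕ) : ℝ) / X) -
      Real.log (((d * l : ℕ) : ℝ) / X) = Real.log ((l + 1 : ℕ) : ℝ) - Real.log l := by
    intro l hl
    have hlr : (0:ℝ) < l := by exact_mod_cast hl
    have hlr1 : (0:ℝ) < ((l + 1 : ℕ) : ℝ) := by exact_mod_cast Nat.succ_pos l
    rw [Nat.cast_mul, Nat.cast_mul, Real.log_div (by positivity) hX.ne',
      Real.log_div (by positivity) hX.ne', Real.log_mul hdr.ne' hlr1.ne',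
      Real.log_mul hdr.ne' hlr.ne']
    ring
  have hmono : ∀ l : ℕ, 1 ≤ l → Real.log l ≤ Real.log ((l + 1 : ℕ) : ℝ) := by
    intro l hl
    exact Real.log_le_log (by exact_mod_cast hl) (by exact_mod_cast Nat.le_succ l)
  have hvar : ∀ l ∈ Ico 1 L, |F (l + 1) - F l| ≤
      (2 + Real.log L) * (Real.log ((l + 1 : ℕ) : ℝ) - Real.log l) := by
    intro l hl
    rw [mem_Ico] at hl
    have e : F (l + 1) - F l = g (l + 1) * (H378R2.Phi (((d * (l + 1) : ℕ) : ℝ) / X) -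
        H378R2.Phi (((d * l : ℕ) : ℝ) / X)) +
        H378R2.Phi (((d * l : ℕ) : ℝ) / X) * (g (l + 1) - g l) := by
      simp only [hF]
      ring
    have h1 : |H378R2.Phi (((d * (l + 1) : ℕ) : ℝ) / X) - H378R2.Phi (((d * l : ℕ) : ℝ) / X)| ≤
        Real.log ((l + 1 : ℕ) : ℝ) - Real.log l := by
      refine (Phi_lip _ _).trans ?_
      rw [hdiff l hl.1, abs_of_nonneg (by linarith [hmono l hl.1])]
    have h2 : |g (l + 1) - g l| ≤ Real.log ((l + 1 : ℕ) : ℝ) - Real.log l := by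
      rcases hg with hg | hg
      · rw [hg, hg, sub_self, abs_zero]; linarith [hmono l hl.1]
      · rw [hg, hg, abs_of_nonneg (by linarith [hmono l hl.1])]
    have h3 : |H378R2.Phi (((d * l : ℕ) : ℝ) / X)| ≤ 1 := by
      rw [abs_of_nonneg (Phi_nonneg _)]
      exact (Phi_le _).trans (by norm_num)
    rw [e]
    refine (abs_add_le _ _).trans ?_
    rw [abs_mul, abs_mul]
    have h4 := hg1 (l + 1) (by omega) (by omega)
    have h5 : 0 ≤ Real.log ((l + 1 : ℕ) : ℝ) - Real.log l := by linarith [hmono l hl.1]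
    calc |g (l + 1)| * |H378R2.Phi (((d * (l + 1) : ℕ) : ℝ) / X) - H378R2.Phi (((d * l : ℕ) : ℝ) / X)| +
        |H378R2.Phi (((d * l : ℕ) : ℝ) / X)| * |g (l + 1) - g l| ≤
        (1 + Real.log L) * (Real.log ((l + 1 : ℕ) : ℝ) - Real.log l) +
          1 * (Real.log ((l + 1 : ℕ) : ℝ) - Real.log l) := by
          gcongr
      _ = _ := by ring
  have htel : ∑ l ∈ Ico 1 L, (Real.log ((l + 1 : ℕ) : ℝ) - Real.log l) ≤ Real.log L := by
    rcases Nat.eq_zero_or_pos L with h0 | h0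
    · subst h0; simp
    · rw [sum_Ico_sub (fun l : ℕ => Real.log (l:ℝ)) h0]
      simp
  have hFL : |F L| ≤ 1 + Real.log L := by
    simp only [hF]
    rw [abs_mul]
    have h3 : |H378R2.Phi (((d * L : ℕ) : ℝ) / X)| ≤ 1 := by
      rw [abs_of_nonneg (Phi_nonneg _)]
      exact (Phi_le _).trans (by norm_num)
    calc |g L| * |H378R2.Phi (((d * L : ℕ) : ℝ) / X)| ≤ (1 + Real.log L) * 1 := by gcongr
      _ = _ := by ring
  have hsum : ∑ l ∈ Ico 1 L, |F (l + 1) - F l| ≤ (2 + Real.log L) * Real.log L := by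
    refine (sum_le_sum hvar).trans ?_
    rw [← mul_sum]
    exact mul_le_mul_of_nonneg_left htel (by linarith)
  refine (abel_le F s L 2 hs).trans ?_
  nlinarith

/-! ### Number of tuples -/

lemma card_tuples {K : ℕ} (S : Finset (Fin K → ℕ)) (Y : ℝ) (hY : 1 ≤ Y)
    (hS : ∀ q ∈ S, Pr q ≠ 0 ∧ (Pr q : ℝ) ≤ Y) : (S.card : ℝ) ≤ Y * (1 + Real.log Y) ^ K := by
  classical
  set N := ⌊Y⌋₊ with hN
  have hsub : S ⊆ Fintype.piFinset (fun _ : Fin K => Icc 1 N) := by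
    intro q hq
    rw [Fintype.mem_piFinset]
    intro j
    obtain ⟨h0, h1⟩ := hS q hq
    have hd : q j ∣ Pr q := dvd_prod_of_mem q (mem_univ j)
    have hp : 0 < Pr q := Nat.pos_of_ne_zero h0
    rw [mem_Icc]
    refine ⟨Nat.pos_of_dvd_of_pos hd hp, ?_⟩
    exact (Nat.le_of_dvd hp hd).trans (Nat.le_floor h1)
  have h1 : (S.card : ℝ) ≤ ∑ q ∈ S, Y * ∏ j, (1 / (q j : ℝ)) := by
    have : (S.card : ℝ) = ∑ q ∈ S, (1:ℝ) := by simp
    rw [this]
    refine sum_le_sum fun q hq => ?_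
    obtain ⟨h0, h1⟩ := hS q hq
    have e : ∏ j, (1 / (q j : ℝ)) = 1 / (Pr q : ℝ) := by
      unfold Pr
      rw [prod_div_distrib]
      simp
    rw [e, mul_one_div, le_div_iff₀ (by exact_mod_cast Nat.pos_of_ne_zero h0), one_mul]
    exact h1
  refine h1.trans ?_
  rw [← mul_sum]
  refine mul_le_mul_of_nonneg_left ?_ (by linarith)
  calc ∑ q ∈ S, ∏ j, (1 / (q j : ℝ)) ≤
      ∑ q ∈ Fintype.piFinset (fun _ : Fin K => Icc 1 N), ∏ j, (1 / (q j : ℝ)) :=
        sum_le_sum_of_subset_of_nonneg hsub fun q _ _ => prod_nonneg fun j _ => by positivity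
    _ = ∏ _j : Fin K, ∑ n ∈ Icc 1 N, (1 / (n : ℝ)) := by
        rw [prod_univ_sum]
    _ = (∑ n ∈ Icc 1 N, (1 / (n : ℝ))) ^ K := by simp
    _ ≤ (1 + Real.log Y) ^ K := by
        refine pow_le_pow_left₀ (sum_nonneg fun n _ => by positivity) ?_ K
        refine (harm N).trans ?_
        have hN1 : 1 ≤ N := Nat.le_floor (by exact_mod_cast hY)
        have : Real.log N ≤ Real.log Y :=
          Real.log_le_log (by exact_mod_cast hN1) (Nat.floor_le (by linarith))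
        linarith

lemma ev_bound (K : ℕ) : ∀ᶠ X : ℝ in atTop, 4 ≤ X ∧
    X ^ (14 / 25 : ℝ) * (1 + Real.log (X ^ (14 / 25 : ℝ))) ^ K *
      (Real.log X * (4 * X ^ (1 / 3 : ℝ) * (1 + Real.log (4 * X ^ (1 / 3 : ℝ)))) *
        (4 * (2 + Real.log (3 * X)) ^ 2)) ≤ X ^ (99 / 100 : ℝ) := by
  have h1 := (isLittleO_log_rpow_rpow_atTop ((K:ℝ) + 4) (show (0:ℝ) < 1 / 20 by norm_num)).bound
    (show (0:ℝ) < 1 / (1600 * 2 ^ K) by positivity)
  filter_upwards [h1, eventually_ge_atTop (4:ℝ)] with X hX hX4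
  refine ⟨hX4, ?_⟩
  have hX0 : 0 < X := by linarith
  have hX1 : 1 ≤ X := by linarith
  have hlog1 : 1 ≤ Real.log X := by
    rw [← Real.log_exp 1]
    refine Real.log_le_log (Real.exp_pos 1) ?_
    have := Real.exp_one_lt_d9
    linarith
  have hlog0 : 0 < Real.log X := by linarith
  set Lx := Real.log X with hL
  rw [Real.norm_of_nonneg (Real.rpow_nonneg hlog0.le _),
    Real.norm_of_nonneg (Real.rpow_nonneg hX0.le _)] at hX
  have e0 : Lx ^ ((K:ℝ) + 4) = Lx ^ (K + 4) := by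
    rw [← Real.rpow_natCast]
    push_cast
    rfl
  rw [e0] at hX
  have hlog4 : Real.log 4 ≤ 2 := by
    have h2 : Real.log 4 = 2 * Real.log 2 := by
      rw [show (4:ℝ) = 2 ^ 2 by norm_num, Real.log_pow]; norm_num
    have := Real.log_two_lt_d9
    linarith
  have hlog3 : Real.log 3 ≤ 2 := (Real.log_le_log (by norm_num) (by norm_num)).trans hlog4
  have b1 : 1 + Real.log (X ^ (14 / 25 : ℝ)) ≤ 2 * Lx := by
    rw [Real.log_rpow hX0]; linarith
  have b1' : 0 ≤ 1 + Real.log (X ^ (14 / 25 : ℝ)) := by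
    rw [Real.log_rpow hX0]; positivity
  have b2 : 1 + Real.log (4 * X ^ (1 / 3 : ℝ)) ≤ 4 * Lx := by
    rw [Real.log_mul (by norm_num) (Real.rpow_pos_of_pos hX0 _).ne', Real.log_rpow hX0]
    linarith
  have b2' : 0 ≤ 1 + Real.log (4 * X ^ (1 / 3 : ℝ)) := by
    have : 0 ≤ Real.log (4:ℝ) := Real.log_nonneg (by norm_num)
    rw [Real.log_mul (by norm_num) (Real.rpow_pos_of_pos hX0 _).ne', Real.log_rpow hX0]
    positivity
  have b3 : 2 + Real.log (3 * X) ≤ 5 * Lx := by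
    rw [Real.log_mul (by norm_num) hX0.ne']
    linarith
  have b3' : 0 ≤ 2 + Real.log (3 * X) := by
    have : 0 ≤ Real.log (3:ℝ) := Real.log_nonneg (by norm_num)
    rw [Real.log_mul (by norm_num) hX0.ne']
    positivity
  have hp1 : 0 < X ^ (14 / 25 : ℝ) := Real.rpow_pos_of_pos hX0 _
  have hp2 : 0 < X ^ (1 / 3 : ℝ) := Real.rpow_pos_of_pos hX0 _
  calc X ^ (14 / 25 : ℝ) * (1 + Real.log (X ^ (14 / 25 : ℝ))) ^ K *
      (Lx * (4 * X ^ (1 / 3 : ℝ) * (1 + Real.log (4 * X ^ (1 / 3 : ℝ)))) *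
        (4 * (2 + Real.log (3 * X)) ^ 2)) ≤
      X ^ (14 / 25 : ℝ) * (2 * Lx) ^ K *
      (Lx * (4 * X ^ (1 / 3 : ℝ) * (4 * Lx)) * (4 * (5 * Lx) ^ 2)) := by gcongr
    _ = X ^ (14 / 25 : ℝ) * X ^ (1 / 3 : ℝ) * ((1600 * 2 ^ K) * Lx ^ (K + 4)) := by
      rw [mul_pow]; ring
    _ ≤ X ^ (14 / 25 : ℝ) * X ^ (1 / 3 : ℝ) * ((1600 * 2 ^ K) *
        (1 / (1600 * 2 ^ K) * X ^ (1 / 20 : ℝ))) := by gcongr
    _ = X ^ (14 / 25 : ℝ) * X ^ (1 / 3 : ℝ) * X ^ (1 / 20 : ℝ) := by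
      have : (1600 * 2 ^ K : ℝ) ≠ 0 := by positivity
      field_simp
    _ = X ^ (14 / 25 + 1 / 3 + 1 / 20 : ℝ) := by
      rw [Real.rpow_add hX0, Real.rpow_add hX0]
    _ ≤ X ^ (99 / 100 : ℝ) := Real.rpow_le_rpow_of_exponent_le hX1 (by norm_num)

end TIa

open TIa in
/-- sums with one long smooth variable -/
theorem ti : S_TI := by
  intro K h W b H B
  filter_upwards [ev_bound K] with X hX S hS c hc γ hγ g hg D1 hD1
  obtain ⟨hX4, hfin⟩ := hX
  have hX0 : 0 < X := by linarith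
  have hX1 : 1 ≤ X := by linarith
  have hlogX : 0 ≤ Real.log X := Real.log_nonneg hX1
  have hlog3X : 0 ≤ Real.log (3 * X) := Real.log_nonneg (by linarith)
  have hL : ∀ q ∈ S, ∀ d ∈ Icc 1 D1, |∑ l ∈ Icc 1 ⌊3 * X⌋₊,
      g l * H378R2.Phi (((d * l : ℕ) : ℝ) / X) * dl h W b (D0 X B) q (d * l)| ≤
        4 * (2 + Real.log (3 * X)) ^ 2 := by
    intro q hq d hd
    rw [mem_Icc] at hd
    refine (weight_sum g hg X hX0 d hd.1 ⌊3 * X⌋₊ (fun l => dl h W b (D0 X B) q (d * l))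
      (fun y => dl_sum H (D0 X B) q (hS q hq).1 d y)).trans ?_
    have h1 : (⌊3 * X⌋₊ : ℝ) ≤ 3 * X := Nat.floor_le (by linarith)
    have h2 : (1:ℝ) ≤ (⌊3 * X⌋₊ : ℝ) := by
      have : 1 ≤ ⌊3 * X⌋₊ := Nat.le_floor (by push_cast; linarith)
      exact_mod_cast this
    have h3 : Real.log (⌊3 * X⌋₊ : ℝ) ≤ Real.log (3 * X) :=
      Real.log_le_log (by linarith) h1
    have h4 : 0 ≤ Real.log (⌊3 * X⌋₊ : ℝ) := Real.log_nonneg h2
    gcongr
  have hD : ∑ d ∈ Icc 1 D1, tau d ≤ 4 * X ^ (1 / 3 : ℝ) * (1 + Real.log (4 * X ^ (1 / 3 : ℝ))) := by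
    have hp2 : 1 ≤ X ^ (1 / 3 : ℝ) := Real.one_le_rpow hX1 (by norm_num)
    refine (sum_tau_le D1).trans ?_
    have h1 : Real.log D1 ≤ Real.log (4 * X ^ (1 / 3 : ℝ)) := by
      rcases Nat.eq_zero_or_pos D1 with h0 | h0
      · subst h0
        simp only [Nat.cast_zero, Real.log_zero]
        exact Real.log_nonneg (by linarith)
      · exact Real.log_le_log (by exact_mod_cast h0) hD1
    have h2 : 0 ≤ Real.log D1 := Real.log_natCast_nonneg D1
    gcongr
  have hq : ∀ q ∈ S, |∑ d ∈ Icc 1 D1, γ d * ∑ l ∈ Icc 1 ⌊3 * X⌋₊,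
      g l * H378R2.Phi (((d * l : ℕ) : ℝ) / X) * dl h W b (D0 X B) q (d * l)| ≤
      Real.log X * (4 * X ^ (1 / 3 : ℝ) * (1 + Real.log (4 * X ^ (1 / 3 : ℝ)))) *
        (4 * (2 + Real.log (3 * X)) ^ 2) := by
    intro q hq
    refine (abs_sum_le_sum_abs _ _).trans ?_
    calc ∑ d ∈ Icc 1 D1, |γ d * ∑ l ∈ Icc 1 ⌊3 * X⌋₊,
        g l * H378R2.Phi (((d * l : ℕ) : ℝ) / X) * dl h W b (D0 X B) q (d * l)| ≤
        ∑ d ∈ Icc 1 D1, (tau d * Real.log X) * (4 * (2 + Real.log (3 * X)) ^ 2) := by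
          refine sum_le_sum fun d hd => ?_
          rw [abs_mul]
          have ht : 0 ≤ tau d := by unfold tau; positivity
          exact mul_le_mul (hγ d) (hL q hq d hd) (abs_nonneg _) (mul_nonneg ht hlogX)
      _ = (Real.log X * ∑ d ∈ Icc 1 D1, tau d) * (4 * (2 + Real.log (3 * X)) ^ 2) := by
          rw [← sum_mul, ← sum_mul, mul_comm (Real.log X)]
      _ ≤ _ := by gcongr
  set Z := Real.log X * (4 * X ^ (1 / 3 : ℝ) * (1 + Real.log (4 * X ^ (1 / 3 : ℝ)))) *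
        (4 * (2 + Real.log (3 * X)) ^ 2) with hZ
  have hZ0 : 0 ≤ Z := by
    have hp2 : 1 ≤ X ^ (1 / 3 : ℝ) := Real.one_le_rpow hX1 (by norm_num)
    have : 0 ≤ Real.log (4 * X ^ (1 / 3 : ℝ)) := Real.log_nonneg (by linarith)
    positivity
  have hYpos : 1 ≤ X ^ (14 / 25 : ℝ) := Real.one_le_rpow hX1 (by norm_num)
  have hcard : (S.card : ℝ) ≤ X ^ (14 / 25 : ℝ) * (1 + Real.log (X ^ (14 / 25 : ℝ))) ^ K := by
    refine card_tuples S _ hYpos fun q hq => ⟨?_, (hS q hq).2⟩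
    intro h0
    have h1 := (hS q hq).1
    rw [h0, mul_zero] at h1
    exact not_squarefree_zero h1
  refine (abs_sum_le_sum_abs _ _).trans ?_
  calc ∑ q ∈ S, |c q * ∑ d ∈ Icc 1 D1, γ d * ∑ l ∈ Icc 1 ⌊3 * X⌋₊,
        g l * H378R2.Phi (((d * l : ℕ) : ℝ) / X) * dl h W b (D0 X B) q (d * l)| ≤
      ∑ q ∈ S, Z := by
        refine sum_le_sum fun q hq' => ?_
        rw [abs_mul]
        calc _ ≤ 1 * Z := mul_le_mul (hc q) (hq q hq') (abs_nonneg _) zero_le_one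
          _ = Z := one_mul Z
    _ = S.card * Z := by rw [sum_const, nsmul_eq_mul]
    _ ≤ (X ^ (14 / 25 : ℝ) * (1 + Real.log (X ^ (14 / 25 : ℝ))) ^ K) * Z := by gcongr
    _ ≤ X ^ (99 / 100 : ℝ) := hfin

end Pool.Agent.Y826.Z
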